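import Pool.Agent.helper4.EQW4.K.N8a
import Pool.Agent.helper4.EQW4.K.N9a
import Pool.Agent.helper4.EQW4.K.N9b
import Pool.Agent.helper4.EQW4.K.N10a
import Pool.Agent.helper4.EQW4.K.N10b
import Pool.Agent.helper4.EQW4.K.N10c
import Pool.Agent.helper4.EQW4.K.N10d
import Pool.Agent.helper4.EQW4.K.N11a
import Pool.Agent.helper4.EQW4.K.N11b
import Pool.Agent.helper4.EQW4.K.N11c
import Pool.Agent.helper4.EQW4.K.N11d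
import Pool.Agent.helper4.EQW4.K.N11e
import Pool.Agent.helper4.EQW4.K.N12a
import Pool.Agent.helper4.EQW4.K.N12b
import Pool.Agent.helper4.EQW4.K.N12c
import Pool.Agent.helper4.EQW4.K.N12d
import Pool.Agent.helper4.EQW4.K.N12e
import Pool.Agent.helper4.EQW4.K.N13a
import Pool.Agent.helper4.EQW4.K.N13b
import Pool.Agent.helper4.EQW4.K.N13c
import Pool.Agent.helper4.EQW4.K.N13d
import Pool.Agent.helper4.EQW4.K.N14a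
import Pool.Agent.helper4.EQW4.K.N14b
import Pool.Agent.helper4.EQW4.K.N14c
import Pool.Agent.helper4.EQW4.K.N14d
import Pool.Agent.helper4.EQW4.K.N15a
import Pool.Agent.helper4.EQW4.K.N15b
import Pool.Agent.helper4.EQW4.K.N15c
import Pool.Agent.helper4.EQW4.K.S10a
import Pool.Agent.helper4.EQW4.K.S11a
import Pool.Agent.helper4.EQW4.K.S12a
import Pool.Agent.helper4.EQW4.K.S13a
import Pool.Agent.helper4.EQW4.K.S14a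
import Pool.Agent.helper4.EQW4.K.S15a
import Pool.Agent.helper4.EQW4.K.S15b

/-!
# EQW4: the trees of all intervals
-/

namespace Pool.Agent.helper4.EQW4

def Tn8 : Tr :=
  (.s 1 (.s 2 (.s 1 n8_0 n8_1) n8_2) n8_3)

theorem Tn8_ok : Tn8.ok 13108 3 Bn8 = true :=
  (ok_s (ok_s (ok_s n8_0_ok n8_1_ok) n8_2_ok) n8_3_ok)

def Tn9 : Tr :=
  (.s 1 (.s 2 (.s 1 (.s 1 n9_0 n9_1) (.s 1 n9_2 n9_3)) n9_4) n9_5)

theorem Tn9_ok : Tn9.ok 13108 3 Bn9 = true :=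
  (ok_s (ok_s (ok_s (ok_s n9_0_ok n9_1_ok) (ok_s n9_2_ok n9_3_ok)) n9_4_ok) n9_5_ok)

def Tn10 : Tr :=
  (.s 1 (.s 2 (.s 1 (.s 1 n10_0 (.s 1 n10_1 n10_2)) (.s 1 (.s 1 (.s 2 n10_3 n10_4) n10_5) n10_6))
  n10_7) n10_8)

theorem Tn10_ok : Tn10.ok 13108 3 Bn10 = true :=
  (ok_s (ok_s (ok_s (ok_s n10_0_ok (ok_s n10_1_ok n10_2_ok)) (ok_s (ok_s (ok_s n10_3_ok n10_4_ok)
  n10_5_ok) n10_6_ok)) n10_7_ok) n10_8_ok)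

def Tn11 : Tr :=
  (.s 1 (.s 2 (.s 1 (.s 1 n11_0 (.s 1 n11_1 n11_2)) (.s 1 (.s 2 n11_3 (.s 2 (.s 1 (.s 2 (.s 3 (.s 3
  n11_4 (.s 3 n11_5 (.s 1 n11_6 n11_7))) n11_8) n11_9) (.s 2 n11_10 n11_11)) n11_12)) n11_13))
  n11_14) n11_15)

theorem Tn11_ok : Tn11.ok 13108 3 Bn11 = true :=
  (ok_s (ok_s (ok_s (ok_s n11_0_ok (ok_s n11_1_ok n11_2_ok)) (ok_s (ok_s n11_3_ok (ok_s (ok_s (ok_s
  (ok_s (ok_s n11_4_ok (ok_s n11_5_ok (ok_s n11_6_ok n11_7_ok))) n11_8_ok) n11_9_ok) (ok_s n11_10_ok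
  n11_11_ok)) n11_12_ok)) n11_13_ok)) n11_14_ok) n11_15_ok)

def Tn12 : Tr :=
  (.s 1 (.s 2 (.s 1 (.s 1 n12_0 (.s 1 n12_1 (.s 2 n12_2 n12_3))) (.s 1 (.s 2 n12_4 (.s 2 (.s 1 (.s 2
  (.s 3 n12_5 n12_6) n12_7) n12_8) n12_9)) n12_10)) n12_11) n12_12)

theorem Tn12_ok : Tn12.ok 13108 3 Bn12 = true :=
  (ok_s (ok_s (ok_s (ok_s n12_0_ok (ok_s n12_1_ok (ok_s n12_2_ok n12_3_ok))) (ok_s (ok_s n12_4_ok
  (ok_s (ok_s (ok_s (ok_s n12_5_ok n12_6_ok) n12_7_ok) n12_8_ok) n12_9_ok)) n12_10_ok)) n12_11_ok)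
  n12_12_ok)

def Tn13 : Tr :=
  (.s 1 (.s 2 (.s 1 (.s 1 (.s 2 (.s 3 n13_0 (.s 2 n13_1 n13_2)) n13_3) (.s 1 n13_4 n13_5)) (.s 1 (.s 2
  n13_6 (.s 2 (.s 1 n13_7 n13_8) n13_9)) n13_10)) n13_11) n13_12)

theorem Tn13_ok : Tn13.ok 13108 3 Bn13 = true :=
  (ok_s (ok_s (ok_s (ok_s (ok_s (ok_s n13_0_ok (ok_s n13_1_ok n13_2_ok)) n13_3_ok) (ok_s n13_4_ok
  n13_5_ok)) (ok_s (ok_s n13_6_ok (ok_s (ok_s n13_7_ok n13_8_ok) n13_9_ok)) n13_10_ok)) n13_11_ok)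
  n13_12_ok)

def Tn14 : Tr :=
  (.s 1 (.s 2 (.s 1 (.s 1 (.s 2 (.s 3 n14_0 (.s 2 n14_1 (.s 1 n14_2 n14_3))) n14_4) (.s 1 n14_5
  n14_6)) (.s 1 (.s 2 n14_7 (.s 2 (.s 1 n14_8 n14_9) n14_10)) n14_11)) n14_12) n14_13)

theorem Tn14_ok : Tn14.ok 13108 3 Bn14 = true :=
  (ok_s (ok_s (ok_s (ok_s (ok_s (ok_s n14_0_ok (ok_s n14_1_ok (ok_s n14_2_ok n14_3_ok))) n14_4_ok)
  (ok_s n14_5_ok n14_6_ok)) (ok_s (ok_s n14_7_ok (ok_s (ok_s n14_8_ok n14_9_ok) n14_10_ok))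
  n14_11_ok)) n14_12_ok) n14_13_ok)

def Tn15 : Tr :=
  (.s 1 (.s 2 (.s 1 (.s 1 (.s 2 (.s 3 n15_0 (.s 2 n15_1 (.s 1 (.s 2 (.s 3 n15_2 n15_3) n15_4) n15_5)))
  n15_6) n15_7) (.s 1 n15_8 n15_9)) n15_10) n15_11)

theorem Tn15_ok : Tn15.ok 13108 3 Bn15 = true :=
  (ok_s (ok_s (ok_s (ok_s (ok_s (ok_s n15_0_ok (ok_s n15_1_ok (ok_s (ok_s (ok_s n15_2_ok n15_3_ok)
  n15_4_ok) n15_5_ok))) n15_6_ok) n15_7_ok) (ok_s n15_8_ok n15_9_ok)) n15_10_ok) n15_11_ok)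

def Ts10 : Tr :=
  s10_0

theorem Ts10_ok : Ts10.ok 6882 5 Bs10 = true :=
  s10_0_ok

def Ts11 : Tr :=
  s11_0

theorem Ts11_ok : Ts11.ok 6882 5 Bs11 = true :=
  s11_0_ok

def Ts12 : Tr :=
  s12_0

theorem Ts12_ok : Ts12.ok 6882 5 Bs12 = true :=
  s12_0_ok

def Ts13 : Tr :=
  (.s 2 s13_0 s13_1)

theorem Ts13_ok : Ts13.ok 6882 5 Bs13 = true :=
  (ok_s s13_0_ok s13_1_ok)

def Ts14 : Tr :=
  (.s 2 s14_0 s14_1)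

theorem Ts14_ok : Ts14.ok 6882 5 Bs14 = true :=
  (ok_s s14_0_ok s14_1_ok)

def Ts15 : Tr :=
  (.s 2 s15_0 (.s 1 s15_1 s15_2))

theorem Ts15_ok : Ts15.ok 6882 5 Bs15 = true :=
  (ok_s s15_0_ok (ok_s s15_1_ok s15_2_ok))

end Pool.Agent.helper4.EQW4
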