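import Pool.Agent.helper4.EQW4.Box4

/-!
# EQW4: root boxes
-/

namespace Pool.Agent.helper4.EQW4

theorem ok_s {vc f3 : ℤ} {k : ℕ} {t1 t2 : Tr} {b : Bx ℤ} (h1 : t1.ok vc f3 (b.lo k) = true)
    (h2 : t2.ok vc f3 (b.hi k) = true) : (Tr.s k t1 t2).ok vc f3 b = true := by
  simp only [Tr.ok, h1, h2, Bool.and_self]

def Bn8 : Bx ℤ := ⟨131072, 147456, 0, 147456, 0, 163840, 0, 65536⟩

def Bn9 : Bx ℤ := ⟨147456, 163840, 0, 147456, 0, 163840, 0, 65536⟩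

def Bn10 : Bx ℤ := ⟨163840, 180224, 0, 147456, 0, 163840, 0, 65536⟩

def Bn11 : Bx ℤ := ⟨180224, 196608, 0, 147456, 0, 163840, 0, 65536⟩

def Bn12 : Bx ℤ := ⟨196608, 212992, 0, 147456, 0, 163840, 0, 65536⟩

def Bn13 : Bx ℤ := ⟨212992, 229376, 0, 147456, 0, 163840, 0, 65536⟩

def Bn14 : Bx ℤ := ⟨229376, 245760, 0, 147456, 0, 163840, 0, 65536⟩

def Bn15 : Bx ℤ := ⟨245760, 262144, 0, 147456, 0, 163840, 0, 65536⟩

def Bs10 : Bx ℤ := ⟨163840, 180224, 0, 27630, 0, 40960, 0, 65536⟩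

def Bs11 : Bx ℤ := ⟨180224, 196608, 0, 27630, 0, 40960, 0, 65536⟩

def Bs12 : Bx ℤ := ⟨196608, 212992, 0, 27630, 0, 40960, 0, 65536⟩

def Bs13 : Bx ℤ := ⟨212992, 229376, 0, 27630, 0, 40960, 0, 65536⟩

def Bs14 : Bx ℤ := ⟨229376, 245760, 0, 27630, 0, 40960, 0, 65536⟩

def Bs15 : Bx ℤ := ⟨245760, 262144, 0, 27630, 0, 40960, 0, 65536⟩

end Pool.Agent.helper4.EQW4
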